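import Mathlib

namespace Pool.Agent.Work.MP_719c9c_nt

/-- The lattice point `p` is at squared distance `< 378250/676` from every point of the box
`[a, a+s] × [b, b+s]` (in units of `1/128`). -/
def insideTest (a b s : ℤ) (p : ℤ × ℤ) : Bool :=
  decide (676 * (max ((128 * p.1 - a) * (128 * p.1 - a))
      ((128 * p.1 - (a + s)) * (128 * p.1 - (a + s))) +
    max ((128 * p.2 - b) * (128 * p.2 - b))
      ((128 * p.2 - (b + s)) * (128 * p.2 - (b + s)))) < 378250 * 16384)

/-- A rough test used only to discard far away points. -/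
def nearTest (a b s : ℤ) (p : ℤ × ℤ) : Bool :=
  decide ((128 * p.1 - a) * (128 * p.1 - a) + (128 * p.2 - b) * (128 * p.2 - b) <
    9167592 + 2 * s * s + 8600 * s)

/-- The box lies in the special box around `(9/26, 5/26)`. -/
def inQ (a b s : ℤ) : Bool :=
  decide (41 ≤ a) && decide (a + s ≤ 48) && decide (21 ≤ b) && decide (b + s ≤ 28)

/-- The recursive covering check, on boxes of side `2 ^ k`. -/
def chk : ℕ → ℤ → ℤ → List (ℤ × ℤ) → ℕ → Bool
  | 0, a, b, pts, cnt =>
    decide (a + 1 < b) || inQ a b 1 ||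
      decide (1750 ≤ cnt + (pts.filter (insideTest a b 1)).length)
  | k + 1, a, b, pts, cnt =>
    decide (a + 2 ^ (k + 1) < b) || inQ a b (2 ^ (k + 1)) ||
    decide (1750 ≤ cnt + (pts.filter (insideTest a b (2 ^ (k + 1)))).length) ||
    (let cnt' := cnt + (pts.filter (insideTest a b (2 ^ (k + 1)))).length
     let und := pts.filter
      (fun p => !insideTest a b (2 ^ (k + 1)) p && nearTest a b (2 ^ (k + 1)) p)
     chk k a b und cnt' && chk k (a + 2 ^ k) b und cnt' &&
       chk k a (b + 2 ^ k) und cnt' && chk k (a + 2 ^ k) (b + 2 ^ k) und cnt')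

/-- All lattice points in `[-25, 25]²`. -/
def allPts : List (ℤ × ℤ) :=
  ((List.range 51) ×ˢ (List.range 51)).map (fun p => ((p.1 : ℤ) - 25, (p.2 : ℤ) - 25))

set_option maxRecDepth 100000 in
theorem chk_all : chk 6 0 0 allPts 0 = true := by decide +kernel

/-- Membership in the open disk with squared radius `378250/676` and center `(x, y)`. -/
def In (x y : ℝ) (p : ℤ × ℤ) : Prop :=
  ((p.1 : ℝ) - x) ^ 2 + ((p.2 : ℝ) - y) ^ 2 < 378250 / 676

theorem sq_le_max {u v X : ℝ} (h1 : v ≤ X) (h2 : X ≤ u) : X * X ≤ max (u * u) (v * v) := by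
  rcases le_total 0 X with h | h
  · exact le_max_of_le_left (by nlinarith)
  · exact le_max_of_le_right (by nlinarith)

theorem insideTest_spec {a b s : ℤ} {p : ℤ × ℤ} (h : insideTest a b s p = true) {x y : ℝ}
    (hx : (a : ℝ) ≤ 128 * x) (hx' : 128 * x ≤ a + s) (hy : (b : ℝ) ≤ 128 * y)
    (hy' : 128 * y ≤ b + s) : In x y p := by
  unfold insideTest at h
  rw [decide_eq_true_eq] at h
  have h' : (676 : ℝ) * (max ((128 * (p.1 : ℝ) - a) * (128 * (p.1 : ℝ) - a))
      ((128 * (p.1 : ℝ) - (a + s)) * (128 * (p.1 : ℝ) - (a + s))) +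
    max ((128 * (p.2 : ℝ) - b) * (128 * (p.2 : ℝ) - b))
      ((128 * (p.2 : ℝ) - (b + s)) * (128 * (p.2 : ℝ) - (b + s)))) < 378250 * 16384 := by
    exact_mod_cast h
  have e1 := sq_le_max (u := 128 * (p.1 : ℝ) - a) (v := 128 * (p.1 : ℝ) - (a + s))
    (X := 128 * ((p.1 : ℝ) - x)) (by linarith) (by linarith)
  have e2 := sq_le_max (u := 128 * (p.2 : ℝ) - b) (v := 128 * (p.2 : ℝ) - (b + s))
    (X := 128 * ((p.2 : ℝ) - y)) (by linarith) (by linarith)
  unfold In
  nlinarith [e1, e2, h']

open Classical in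
theorem count_split (a b s : ℤ) (x y : ℝ) (pts : List (ℤ × ℤ))
    (hx : (a : ℝ) ≤ 128 * x) (hx' : 128 * x ≤ a + s) (hy : (b : ℝ) ≤ 128 * y)
    (hy' : 128 * y ≤ b + s) :
    (pts.filter (insideTest a b s)).length +
      (pts.filter (fun p => !insideTest a b s p && nearTest a b s p)).countP
        (fun p => decide (In x y p)) ≤
    pts.countP (fun p => decide (In x y p)) := by
  induction pts with
  | nil => simp
  | cons p t ih =>
    by_cases h1 : insideTest a b s p = true
    · have h2 : In x y p := insideTest_spec h1 hx hx' hy hy'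
      simp only [List.filter_cons, h1, h2, if_true, List.length_cons, List.countP_cons,
        decide_true, Bool.not_true, Bool.false_and, Bool.false_eq_true, if_false]
      omega
    · rw [Bool.not_eq_true] at h1
      by_cases h3 : nearTest a b s p = true
      · simp only [List.filter_cons, h1, h3, Bool.not_false, Bool.true_and, if_true,
          List.countP_cons, Bool.false_eq_true, if_false]
        omega
      · rw [Bool.not_eq_true] at h3
        simp only [List.filter_cons, h1, h3, Bool.not_false, Bool.true_and,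
          List.countP_cons, Bool.false_eq_true, if_false]
        omega

open Classical in
theorem chk_spec (k : ℕ) : ∀ (a b : ℤ) (pts : List (ℤ × ℤ)) (cnt : ℕ),
    chk k a b pts cnt = true → ∀ x y : ℝ, (a : ℝ) ≤ 128 * x → 128 * x ≤ a + 2 ^ k →
    (b : ℝ) ≤ 128 * y → 128 * y ≤ b + 2 ^ k → y ≤ x →
    ¬ (41 ≤ 128 * x ∧ 128 * x ≤ 48 ∧ 21 ≤ 128 * y ∧ 128 * y ≤ 28) →
    1750 ≤ cnt + pts.countP (fun p => decide (In x y p)) := by
  have hQ : ∀ (a b s : ℤ) (x y : ℝ), inQ a b s = true → (a : ℝ) ≤ 128 * x →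
      128 * x ≤ a + s → (b : ℝ) ≤ 128 * y → 128 * y ≤ b + s →
      (41 ≤ 128 * x ∧ 128 * x ≤ 48 ∧ 21 ≤ 128 * y ∧ 128 * y ≤ 28) := by
    intro a b s x y h h1 h2 h3 h4
    unfold inQ at h
    simp only [Bool.and_eq_true, decide_eq_true_eq] at h
    obtain ⟨⟨⟨g1, g2⟩, g3⟩, g4⟩ := h
    have g1' : (41 : ℝ) ≤ a := by exact_mod_cast g1
    have g2' : (a : ℝ) + s ≤ 48 := by exact_mod_cast g2
    have g3' : (21 : ℝ) ≤ b := by exact_mod_cast g3
    have g4' : (b : ℝ) + s ≤ 28 := by exact_mod_cast g4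
    exact ⟨by linarith, by linarith, by linarith, by linarith⟩
  induction k with
  | zero =>
    intro a b pts cnt h x y hx hx' hy hy' hyx hnQ
    unfold chk at h
    simp only [Bool.or_eq_true, decide_eq_true_eq] at h
    rw [pow_zero] at hx' hy'
    rcases h with (h | h) | h
    · exfalso
      have : (a : ℝ) + 1 < b := by exact_mod_cast h
      linarith
    · exact absurd (hQ a b 1 x y h hx (by exact_mod_cast hx') hy (by exact_mod_cast hy')) hnQ
    · have := count_split a b 1 x y pts hx (by exact_mod_cast hx') hy (by exact_mod_cast hy')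
      omega
  | succ k ih =>
    intro a b pts cnt h x y hx hx' hy hy' hyx hnQ
    unfold chk at h
    simp only [Bool.or_eq_true, decide_eq_true_eq, Bool.and_eq_true] at h
    have c2 : (((2 : ℤ) ^ (k + 1) : ℤ) : ℝ) = (2 : ℝ) ^ (k + 1) := by push_cast; ring
    have c1 : (((2 : ℤ) ^ k : ℤ) : ℝ) = (2 : ℝ) ^ k := by push_cast; ring
    have hsplit := count_split a b (2 ^ (k + 1)) x y pts hx (by rw [c2]; exact hx') hy
      (by rw [c2]; exact hy')
    rcases h with ((h | h) | h) | h
    · exfalso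
      have h' : (a : ℝ) + (((2 : ℤ) ^ (k + 1) : ℤ) : ℝ) < b := by exact_mod_cast h
      rw [c2] at h'
      linarith
    · exact absurd (hQ a b _ x y h hx (by rw [c2]; exact hx') hy (by rw [c2]; exact hy')) hnQ
    · omega
    · obtain ⟨⟨⟨h1, h2⟩, h3⟩, h4⟩ := h
      have hpow : (2 : ℝ) ^ (k + 1) = 2 ^ k + 2 ^ k := by ring
      rw [hpow] at hx' hy'
      have ca : (((a + 2 ^ k : ℤ)) : ℝ) = (a : ℝ) + 2 ^ k := by push_cast; ring
      have cb : (((b + 2 ^ k : ℤ)) : ℝ) = (b : ℝ) + 2 ^ k := by push_cast; ring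
      rcases le_total (128 * x) (a + 2 ^ k) with hxa | hxa
      · rcases le_total (128 * y) (b + 2 ^ k) with hyb | hyb
        · have := ih a b _ _ h1 x y hx hxa hy hyb hyx hnQ
          omega
        · have := ih a (b + 2 ^ k) _ _ h3 x y hx hxa (by rw [cb]; exact hyb)
            (by rw [cb]; linarith) hyx hnQ
          omega
      · rcases le_total (128 * y) (b + 2 ^ k) with hyb | hyb
        · have := ih (a + 2 ^ k) b _ _ h2 x y (by rw [ca]; exact hxa) (by rw [ca]; linarith)
            hy hyb hyx hnQ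
          omega
        · have := ih (a + 2 ^ k) (b + 2 ^ k) _ _ h4 x y (by rw [ca]; exact hxa)
            (by rw [ca]; linarith) (by rw [cb]; exact hyb) (by rw [cb]; linarith) hyx hnQ
          omega

end Pool.Agent.Work.MP_719c9c_nt
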